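import Mathlib

/-!
# Existence of the real closure of an ordered field
-/

set_option autoImplicit false

open Polynomial

namespace Helper62.RC

variable {K Ω : Type*} [Field K] [LinearOrder K] [IsStrictOrderedRing K] [Field Ω] [Algebra K Ω]

/-- the monoid of the elements `a x ^ 2`, `0 ≤ a` in `K`, `x` in `E` -/
def mon (E : IntermediateField K Ω) : Submonoid Ω where
  carrier := {z | ∃ a : K, 0 ≤ a ∧ ∃ x ∈ E, z = algebraMap K Ω a * x ^ 2}
  one_mem' := ⟨1, zero_le_one, 1, E.one_mem, by simp⟩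
  mul_mem' := by
    rintro _ _ ⟨a, ha, x, hx, rfl⟩ ⟨b, hb, y, hy, rfl⟩
    exact ⟨a * b, mul_nonneg ha hb, x * y, E.mul_mem hx hy, by rw [map_mul]; ring⟩

/-- sums of elements `a x ^ 2` -/
def T (E : IntermediateField K Ω) : Subsemiring Ω := (mon E).subsemiringClosure

lemma sq_mem_T {E : IntermediateField K Ω} {x : Ω} (hx : x ∈ E) : x ^ 2 ∈ T E :=
  AddSubmonoid.subset_closure ⟨1, zero_le_one, x, hx, by simp⟩

lemma algebraMap_mem_T (E : IntermediateField K Ω) {a : K} (ha : 0 ≤ a) :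
    algebraMap K Ω a ∈ T E :=
  AddSubmonoid.subset_closure ⟨a, ha, 1, E.one_mem, by simp⟩

lemma T_induction {E : IntermediateField K Ω} {p : Ω → Prop}
    (hm : ∀ (a : K) (x : Ω), 0 ≤ a → x ∈ E → p (algebraMap K Ω a * x ^ 2)) (h0 : p 0)
    (ha : ∀ x y, p x → p y → p (x + y)) {z : Ω} (hz : z ∈ T E) : p z := by
  refine AddSubmonoid.closure_induction (s := (mon E : Set Ω)) ?_ h0
    (fun x y _ _ hx hy => ha x y hx hy) hz
  rintro _ ⟨a, ha', x, hx, rfl⟩
  exact hm a x ha' hx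

lemma T_le {E : IntermediateField K Ω} {z : Ω} (hz : z ∈ T E) : z ∈ E := by
  refine T_induction (p := fun z => z ∈ E) ?_ E.zero_mem (fun x y hx hy => E.add_mem hx hy) hz
  intro a x _ hx
  exact E.mul_mem (E.algebraMap_mem a) (pow_mem hx 2)

lemma T_bot {z : Ω} (hz : z ∈ T (⊥ : IntermediateField K Ω)) :
    ∃ a : K, 0 ≤ a ∧ z = algebraMap K Ω a := by
  refine T_induction (p := fun z => ∃ a : K, 0 ≤ a ∧ z = algebraMap K Ω a) ?_ ⟨0, le_rfl, by simp⟩
    ?_ hz
  · intro a x ha hx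
    obtain ⟨y, rfl⟩ := IntermediateField.mem_bot.1 hx
    exact ⟨a * y ^ 2, mul_nonneg ha (sq_nonneg y), by simp⟩
  · rintro x y ⟨a, ha, rfl⟩ ⟨b, hb, rfl⟩
    exact ⟨a + b, add_nonneg ha hb, by simp⟩

lemma neg_one_notMem_T_bot : (-1 : Ω) ∉ T (⊥ : IntermediateField K Ω) := by
  intro h
  obtain ⟨a, ha, h1⟩ := T_bot h
  have h2 : algebraMap K Ω (-1) = algebraMap K Ω a := by rw [← h1]; simp
  have h3 := (algebraMap K Ω).injective h2
  rw [← h3] at ha
  exact absurd ha (by norm_num)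

lemma mem_T_iSup {ι : Type*} [Nonempty ι] {t : ι → IntermediateField K Ω}
    (dir : Directed (· ≤ ·) t) {z : Ω} (hz : z ∈ T (iSup t)) : ∃ i, z ∈ T (t i) := by
  have hmono : ∀ {i j : ι}, t i ≤ t j → ∀ {z}, z ∈ T (t i) → z ∈ T (t j) := by
    intro i j hij z hz
    refine T_induction (p := fun z => z ∈ T (t j)) ?_ (T (t j)).zero_mem
      (fun x y hx hy => (T (t j)).add_mem hx hy) hz
    intro a x ha hx
    exact AddSubmonoid.subset_closure ⟨a, ha, x, hij hx, rfl⟩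
  refine T_induction (p := fun z => ∃ i, z ∈ T (t i)) ?_ ⟨Classical.arbitrary ι, Subsemiring.zero_mem _⟩
    ?_ hz
  · intro a x ha hx
    rw [← SetLike.mem_coe, IntermediateField.coe_iSup_of_directed dir, Set.mem_iUnion] at hx
    obtain ⟨i, hi⟩ := hx
    exact ⟨i, AddSubmonoid.subset_closure ⟨a, ha, x, hi, rfl⟩⟩
  · rintro x y ⟨i, hi⟩ ⟨j, hj⟩
    obtain ⟨k, hik, hjk⟩ := dir i j
    exact ⟨k, (T (t k)).add_mem (hmono hik hi) (hmono hjk hj)⟩

variable (K Ω) in
lemma exists_maximal : ∃ E : IntermediateField K Ω,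
    Maximal (fun E : IntermediateField K Ω => (-1 : Ω) ∉ T E) E := by
  have key : ∀ c ⊆ {E : IntermediateField K Ω | (-1 : Ω) ∉ T E}, IsChain (· ≤ ·) c → ∀ y ∈ c,
      ∃ ub ∈ {E : IntermediateField K Ω | (-1 : Ω) ∉ T E}, ∀ z ∈ c, z ≤ ub := by
    intro c hc hchain y hy
    have hne : Nonempty c := ⟨⟨y, hy⟩⟩
    refine ⟨⨆ i : c, (i : IntermediateField K Ω), ?_, fun z hz => le_iSup
      (fun i : c => (i : IntermediateField K Ω)) ⟨z, hz⟩⟩
    intro h
    have dir : Directed (· ≤ ·) fun i : c => (i : IntermediateField K Ω) := by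
      intro a b
      rcases hchain.total a.2 b.2 with h1 | h1
      · exact ⟨b, h1, le_refl (b : IntermediateField K Ω)⟩
      · exact ⟨a, le_refl (a : IntermediateField K Ω), h1⟩
    obtain ⟨i, hi⟩ := mem_T_iSup dir h
    exact hc i.2 hi
  obtain ⟨m, _, hm⟩ := zorn_le_nonempty₀ {E : IntermediateField K Ω | (-1 : Ω) ∉ T E} key ⊥
    neg_one_notMem_T_bot
  exact ⟨m, hm⟩

/-- adjunction of a square root -/
def sqf (E : IntermediateField K Ω) (s : Ω) (hs : s ^ 2 ∈ E) : IntermediateField K Ω where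
  carrier := {z | ∃ u ∈ E, ∃ v ∈ E, z = u + v * s}
  mul_mem' := by
    rintro _ _ ⟨u, hu, v, hv, rfl⟩ ⟨u', hu', v', hv', rfl⟩
    exact ⟨u * u' + v * v' * s ^ 2, E.add_mem (E.mul_mem hu hu')
      (E.mul_mem (E.mul_mem hv hv') hs), u * v' + v * u',
      E.add_mem (E.mul_mem hu hv') (E.mul_mem hv hu'), by ring⟩
  add_mem' := by
    rintro _ _ ⟨u, hu, v, hv, rfl⟩ ⟨u', hu', v', hv', rfl⟩
    exact ⟨u + u', E.add_mem hu hu', v + v', E.add_mem hv hv', by ring⟩
  algebraMap_mem' := fun a => ⟨algebraMap K Ω a, E.algebraMap_mem a, 0, E.zero_mem, by ring⟩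
  inv_mem' := by
    rintro _ ⟨u, hu, v, hv, rfl⟩
    by_cases h : s ∈ E
    · exact ⟨(u + v * s)⁻¹, E.inv_mem (E.add_mem hu (E.mul_mem hv h)), 0, E.zero_mem, by ring⟩
    · by_cases h0 : u + v * s = 0
      · exact ⟨0, E.zero_mem, 0, E.zero_mem, by rw [h0]; simp⟩
      · have h1 : u - v * s ≠ 0 := by
          intro h2
          by_cases hv0 : v = 0
          · rw [hv0] at h2 h0
            apply h0
            rw [zero_mul, sub_zero] at h2
            rw [h2, zero_mul, add_zero]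
          · apply h
            have : s = u / v := by
              field_simp
              linear_combination -h2
            rw [this]
            exact E.div_mem hu hv
        have hN : u ^ 2 - v ^ 2 * s ^ 2 ∈ E :=
          E.sub_mem (pow_mem hu 2) (E.mul_mem (pow_mem hv 2) hs)
        have hN0 : u ^ 2 - v ^ 2 * s ^ 2 ≠ 0 := by
          have : u ^ 2 - v ^ 2 * s ^ 2 = (u + v * s) * (u - v * s) := by ring
          rw [this]
          exact mul_ne_zero h0 h1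
        refine ⟨u / (u ^ 2 - v ^ 2 * s ^ 2), E.div_mem hu hN, -v / (u ^ 2 - v ^ 2 * s ^ 2),
          E.div_mem (E.neg_mem hv) hN, ?_⟩
        rw [inv_eq_iff_eq_inv]
        have : u / (u ^ 2 - v ^ 2 * s ^ 2) + -v / (u ^ 2 - v ^ 2 * s ^ 2) * s =
            (u - v * s) / (u ^ 2 - v ^ 2 * s ^ 2) := by ring
        rw [this, inv_div, eq_div_iff h1]
        ring

omit [LinearOrder K] [IsStrictOrderedRing K] in
lemma le_sqf (E : IntermediateField K Ω) (s : Ω) (hs : s ^ 2 ∈ E) : E ≤ sqf E s hs :=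
  fun x hx => ⟨x, hx, 0, E.zero_mem, by ring⟩

omit [LinearOrder K] [IsStrictOrderedRing K] in
lemma mem_sqf (E : IntermediateField K Ω) (s : Ω) (hs : s ^ 2 ∈ E) : s ∈ sqf E s hs :=
  ⟨0, E.zero_mem, 1, E.one_mem, by ring⟩

section Max

variable {E : IntermediateField K Ω} (hE : Maximal (fun E : IntermediateField K Ω => (-1 : Ω) ∉ T E) E)

include hE

lemma neg_one_mem_of_lt {E' : IntermediateField K Ω} (h : E ≤ E') {s : Ω} (hs : s ∈ E')
    (hs' : s ∉ E) : (-1 : Ω) ∈ T E' := by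
  by_contra h1
  exact hs' (hE.2 h1 h hs)

lemma sq_or_neg_mem [IsAlgClosed Ω] {x : Ω} (hx : x ∈ E) : (∃ y ∈ E, y ^ 2 = x) ∨ -x ∈ T E := by
  by_contra hcon
  push Not at hcon
  obtain ⟨h1, h2⟩ := hcon
  obtain ⟨s, hs⟩ := IsAlgClosed.exists_pow_nat_eq x (n := 2) (by norm_num)
  have hsE : s ∉ E := fun h => h1 s h hs
  have hs2 : s ^ 2 ∈ E := by rw [hs]; exact hx
  have h3 := neg_one_mem_of_lt hE (le_sqf E s hs2) (mem_sqf E s hs2) hsE
  have h4 : ∀ z ∈ T (sqf E s hs2), ∃ p ∈ T E, ∃ q ∈ T E, ∃ r ∈ E, z = p + q * x + r * s := by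
    intro z hz
    refine T_induction (p := fun z => ∃ p ∈ T E, ∃ q ∈ T E, ∃ r ∈ E, z = p + q * x + r * s) ?_
      ⟨0, (T E).zero_mem, 0, (T E).zero_mem, 0, E.zero_mem, by ring⟩ ?_ hz
    · rintro a _ ha ⟨u, hu, v, hv, rfl⟩
      refine ⟨algebraMap K Ω a * u ^ 2, (T E).mul_mem (algebraMap_mem_T E ha) (sq_mem_T hu),
        algebraMap K Ω a * v ^ 2, (T E).mul_mem (algebraMap_mem_T E ha) (sq_mem_T hv),
        algebraMap K Ω a * (2 * u * v), E.mul_mem (E.algebraMap_mem a)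
          (E.mul_mem (E.mul_mem (by exact_mod_cast E.natCast_mem 2) hu) hv), ?_⟩
      rw [← hs]
      ring
    · rintro _ _ ⟨p, hp, q, hq, r, hr, rfl⟩ ⟨p', hp', q', hq', r', hr', rfl⟩
      exact ⟨p + p', (T E).add_mem hp hp', q + q', (T E).add_mem hq hq', r + r',
        E.add_mem hr hr', by ring⟩
  obtain ⟨p, hp, q, hq, r, hr, h5⟩ := h4 _ h3
  have hr0 : r = 0 := by
    by_contra hr0
    apply hsE
    have : s = (-1 - p - q * x) / r := by
      field_simp
      linear_combination -h5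
    rw [this]
    exact E.div_mem (E.sub_mem (E.sub_mem (E.neg_mem E.one_mem) (T_le hp))
      (E.mul_mem (T_le hq) hx)) hr
  rw [hr0, zero_mul, add_zero] at h5
  have hq0 : q ≠ 0 := by
    intro h
    rw [h, zero_mul, add_zero] at h5
    apply hE.1
    rw [h5]
    exact hp
  apply h2
  have : -x = (1 + p) * q * (q⁻¹) ^ 2 := by
    field_simp
    linear_combination h5
  rw [this]
  exact (T E).mul_mem ((T E).mul_mem ((T E).add_mem (T E).one_mem hp) hq)
    (sq_mem_T (E.inv_mem (T_le hq)))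

lemma eq_zero_of_mem {x : Ω} (hx : x ∈ T E) (hx' : -x ∈ T E) : x = 0 := by
  by_contra h
  apply hE.1
  have : (-1 : Ω) = x * (-x) * (x⁻¹) ^ 2 := by
    field_simp
  rw [this]
  exact (T E).mul_mem ((T E).mul_mem hx hx') (sq_mem_T (E.inv_mem (T_le hx)))

lemma sq_of_mem_T [IsAlgClosed Ω] {x : Ω} (hx : x ∈ T E) : ∃ y ∈ E, y ^ 2 = x := by
  rcases sq_or_neg_mem hE (T_le hx) with h | h
  · exact h
  · exact ⟨0, E.zero_mem, by rw [eq_zero_of_mem hE hx h]; simp⟩

lemma mem_T_or [IsAlgClosed Ω] {x : Ω} (hx : x ∈ E) : x ∈ T E ∨ -x ∈ T E := by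
  rcases sq_or_neg_mem hE hx with ⟨y, hy, rfl⟩ | h
  · exact .inl (sq_mem_T hy)
  · exact .inr h

end Max

end Helper62.RC
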