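import Mathlib
import Pool.Agent.Helper62.RC.Closure

/-!
# Existence of the real closure of an ordered field: order and odd degree polynomials
-/

set_option autoImplicit false

open Polynomial

namespace Helper62.RC

section Good

variable {R : Type*} [Field R] [LinearOrder R] [IsStrictOrderedRing R]

/-- properties of sums of squares of polynomials -/
def Good (n : ℕ) (h : R[X]) : Prop :=
  (h = 0 ∨ (Even h.natDegree ∧ 0 < h.leadingCoeff)) ∧ h.natDegree < 2 * n ∧ ∀ b : R, 0 ≤ h.eval b

lemma Good.zero {n : ℕ} (hn : 0 < n) : Good n (0 : R[X]) :=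
  ⟨.inl rfl, by simpa using hn, by simp⟩

lemma Good.sq {n : ℕ} {g : R[X]} (hg : g.natDegree < n) : Good n (g ^ 2) := by
  refine ⟨?_, ?_, fun b => by rw [eval_pow]; exact sq_nonneg _⟩
  · by_cases h : g = 0
    · left; rw [h]; simp
    · right
      rw [natDegree_pow, leadingCoeff_pow]
      exact ⟨even_two_mul _, by
        have : g.leadingCoeff ≠ 0 := leadingCoeff_ne_zero.2 h
        positivity⟩
  · rw [natDegree_pow]; omega

lemma Good.add {n : ℕ} {g h : R[X]} (hg : Good n g) (hh : Good n h) : Good n (g + h) := by
  obtain ⟨g1, g2, g3⟩ := hg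
  obtain ⟨h1, h2, h3⟩ := hh
  refine ⟨?_, ?_, fun b => by rw [eval_add]; exact add_nonneg (g3 b) (h3 b)⟩
  · rcases g1 with rfl | ⟨ge, gl⟩
    · rw [zero_add]; exact h1
    rcases h1 with rfl | ⟨he, hl⟩
    · rw [add_zero]; exact .inr ⟨ge, gl⟩
    right
    have g0 : g ≠ 0 := by
      rintro rfl
      simp at gl
    have h0 : h ≠ 0 := by
      rintro rfl
      simp at hl
    rcases lt_trichotomy g.natDegree h.natDegree with hlt | heq | hlt
    · rw [natDegree_add_eq_right_of_natDegree_lt hlt,
        leadingCoeff_add_of_degree_lt (degree_lt_degree hlt)]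
      exact ⟨he, hl⟩
    · have hd : g.degree = h.degree := by
        rw [degree_eq_natDegree g0, degree_eq_natDegree h0, heq]
      have hne : g.leadingCoeff + h.leadingCoeff ≠ 0 := (add_pos gl hl).ne'
      have hlc := leadingCoeff_add_of_degree_eq hd hne
      have hdeg := degree_add_eq_of_leadingCoeff_add_ne_zero hne
      have hnat : (g + h).natDegree = h.natDegree := by
        rw [natDegree, hdeg, hd, max_self]
        rfl
      rw [hnat, hlc]
      exact ⟨he, add_pos gl hl⟩
    · rw [natDegree_add_eq_left_of_natDegree_lt hlt, add_comm,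
        leadingCoeff_add_of_degree_lt (degree_lt_degree hlt)]
      exact ⟨ge, gl⟩
  · exact lt_of_le_of_lt (natDegree_add_le g h) (max_lt g2 h2)

lemma exists_irreducible_of_odd {F : Type*} [Field F]
    (hP : ∀ p : F[X], Irreducible p → Odd p.natDegree →
      (∀ q : F[X], Odd q.natDegree → q.natDegree < p.natDegree → ∃ x, q.IsRoot x) →
      ∃ x, p.IsRoot x) (p : F[X]) (hp : Odd p.natDegree) : ∃ x, p.IsRoot x := by
  induction hn : p.natDegree using Nat.strong_induction_on generalizing p with
  | _ n ih =>
    subst hn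
    have hp0 : p ≠ 0 := by
      rintro rfl
      simp at hp
    have hpu : ¬ IsUnit p := by
      intro h
      rw [natDegree_eq_zero_of_isUnit h] at hp
      simp at hp
    by_cases hirr : Irreducible p
    · exact hP p hirr hp fun q hq hlt => ih _ hlt q hq rfl
    · rw [irreducible_iff] at hirr
      push Not at hirr
      obtain ⟨a, b, hab, ha, hb⟩ := hirr hpu
      have ha0 : a ≠ 0 := by rintro rfl; exact hp0 (by rw [hab, zero_mul])
      have hb0 : b ≠ 0 := by rintro rfl; exact hp0 (by rw [hab, mul_zero])
      have hdeg : p.natDegree = a.natDegree + b.natDegree := by rw [hab, natDegree_mul ha0 hb0]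
      have ha1 : a.natDegree ≠ 0 := by
        intro h
        obtain ⟨c, hc⟩ := natDegree_eq_zero.1 h
        apply ha
        rw [← hc, isUnit_C]
        apply IsUnit.mk0
        rintro rfl
        apply ha0
        rw [← hc, C_0]
      have hb1 : b.natDegree ≠ 0 := by
        intro h
        obtain ⟨c, hc⟩ := natDegree_eq_zero.1 h
        apply hb
        rw [← hc, isUnit_C]
        apply IsUnit.mk0
        rintro rfl
        apply hb0
        rw [← hc, C_0]
      rcases Nat.even_or_odd a.natDegree with hae | hao
      · have hbo : Odd b.natDegree := by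
          rw [hdeg, Nat.odd_add'] at hp
          exact hp.2 hae
        obtain ⟨x, hx⟩ := ih b.natDegree (by omega) b hbo rfl
        exact ⟨x, by rw [hab, IsRoot.def, eval_mul, hx.eq_zero, mul_zero]⟩
      · obtain ⟨x, hx⟩ := ih a.natDegree (by omega) a hao rfl
        exact ⟨x, by rw [hab, IsRoot.def, eval_mul, hx.eq_zero, zero_mul]⟩

end Good

variable {K Ω : Type*} [Field K] [LinearOrder K] [IsStrictOrderedRing K] [Field Ω] [Algebra K Ω]
  [IsAlgClosed Ω]
  {E : IntermediateField K Ω} (hE : Maximal (fun E : IntermediateField K Ω => (-1 : Ω) ∉ T E) E)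

include hE

lemma exists_order : ∃ (_ : LinearOrder E) (_ : IsStrictOrderedRing E),
    ∀ x : E, 0 ≤ x ↔ (x : Ω) ∈ T E := by
  classical
  let C : RingCone E :=
    { carrier := {x | (x : Ω) ∈ T E}
      mul_mem' := fun {a b} ha hb => by
        have := (T E).mul_mem ha hb
        simpa using this
      one_mem' := by
        have := (T E).one_mem
        simpa using this
      add_mem' := fun {a b} ha hb => by
        have := (T E).add_mem ha hb
        simpa using this
      zero_mem' := by
        have := (T E).zero_mem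
        simpa using this
      eq_zero_of_mem_of_neg_mem' := fun {a} ha hb => by
        apply Subtype.ext
        exact eq_zero_of_mem hE ha (by simpa using hb) }
  haveI : HasMemOrNegMem C := ⟨fun a => by
    rcases mem_T_or hE a.2 with h | h
    · exact .inl h
    · refine .inr ?_
      change ((-a : E) : Ω) ∈ T E
      simpa using h⟩
  letI lo : LinearOrder E := LinearOrder.mkOfAddGroupCone C
  haveI : IsOrderedRing E := IsOrderedRing.mkOfCone C
  refine ⟨lo, IsOrderedRing.toIsStrictOrderedRing E, fun x => ?_⟩
  change ((x - 0 : E) : Ω) ∈ T E ↔ _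
  rw [sub_zero]

lemma odd_root [LinearOrder E] [IsStrictOrderedRing E] (hle : ∀ x : E, 0 ≤ x ↔ (x : Ω) ∈ T E)
    (p : E[X]) (hp : Odd p.natDegree) : ∃ x, p.IsRoot x := by
  refine exists_irreducible_of_odd ?_ p hp
  clear hp p
  intro p hirr hp ih
  have hd0 : p.degree ≠ 0 := by
    intro h
    have h1 : p.natDegree = 0 := natDegree_eq_of_degree_eq_some h
    rw [h1] at hp
    exact absurd hp (by decide)
  obtain ⟨α, hα⟩ := IsAlgClosed.exists_aeval_eq_zero Ω p hd0
  by_cases hαE : α ∈ E
  · refine ⟨⟨α, hαE⟩, ?_⟩
    have h1 : aeval (algebraMap E Ω ⟨α, hαE⟩) p = 0 := hα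
    rw [aeval_algebraMap_apply] at h1
    have h2 := (algebraMap E Ω).injective (h1.trans (map_zero _).symm)
    rwa [IsRoot.def, ← coe_aeval_eq_eval]
  · exfalso
    have hint : IsIntegral E α := by
      rw [← isAlgebraic_iff_isIntegral]
      exact ⟨p, hirr.ne_zero, hα⟩
    have hlt := neg_one_mem_of_lt hE (E' := (IntermediateField.adjoin E {α}).restrictScalars K)
      (fun x hx => by
        rw [IntermediateField.mem_restrictScalars]
        exact (IntermediateField.adjoin E {α}).algebraMap_mem ⟨x, hx⟩)
      (s := α) (by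
        rw [IntermediateField.mem_restrictScalars]
        exact IntermediateField.mem_adjoin_simple_self E α) hαE
    have hn : 0 < p.natDegree := hp.pos
    have hrep : ∀ z ∈ (IntermediateField.adjoin E {α}), ∃ g : E[X], g.natDegree < p.natDegree ∧
        aeval α g = z := by
      intro z hz
      have hz' : z ∈ (IntermediateField.adjoin E {α}).toSubalgebra := hz
      rw [IntermediateField.adjoin_simple_toSubalgebra_of_isAlgebraic hint.isAlgebraic,
        Algebra.adjoin_singleton_eq_range_aeval] at hz'
      obtain ⟨g, rfl⟩ := hz'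
      refine ⟨g % p, ?_, ?_⟩
      · exact natDegree_mod_lt g hn.ne'
      · have := EuclideanDomain.div_add_mod g p
        conv_rhs => rw [← this]
        simp [hα]
    have hmain : ∃ h : E[X], Good p.natDegree h ∧ aeval α h = (-1 : Ω) := by
      refine T_induction (p := fun z => ∃ h : E[X], Good p.natDegree h ∧ aeval α h = z) ?_
        ⟨0, Good.zero hn, by simp⟩ ?_ hlt
      · intro a x ha hx
        rw [IntermediateField.mem_restrictScalars] at hx
        obtain ⟨g, hg1, hg2⟩ := hrep x hx
        obtain ⟨b, hb, hb2⟩ := sq_of_mem_T hE (algebraMap_mem_T E ha)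
        refine ⟨(C ⟨b, hb⟩ * g) ^ 2, Good.sq ?_, ?_⟩
        · exact lt_of_le_of_lt (natDegree_C_mul_le _ _) hg1
        · rw [map_pow, map_mul, aeval_C, hg2, mul_pow, ← hb2]
          rfl
      · rintro x y ⟨g, hg, rfl⟩ ⟨h, hh, rfl⟩
        exact ⟨g + h, hg.add hh, map_add _ _ _⟩
    obtain ⟨h, hgood, hval⟩ := hmain
    have hgood1 : Good p.natDegree (h + 1) := by
      refine hgood.add ?_
      have : (1 : E[X]) = 1 ^ 2 := by ring
      rw [this]
      exact Good.sq (by simpa using hn)
    have hdvd : p ∣ h + 1 := by
      by_contra hnd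
      obtain ⟨u, v, huv⟩ := (hirr.coprime_iff_not_dvd).2 hnd
      have := congrArg (aeval α) huv
      rw [map_add, map_mul, map_mul, hα, map_add, hval, map_one] at this
      simp at this
    obtain ⟨k, hk⟩ := hdvd
    obtain ⟨h1, h2, h3⟩ := hgood1
    rcases h1 with h1 | ⟨h1, h1'⟩
    · have h4 := hgood.2.2 0
      rw [eq_neg_of_add_eq_zero_left h1] at h4
      simp at h4
      exact absurd h4 (by norm_num)
    · have hk0 : k ≠ 0 := by
        rintro rfl
        rw [mul_zero] at hk
        rw [hk] at h1'
        simp at h1'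
      have hdeg : (h + 1).natDegree = p.natDegree + k.natDegree := by
        rw [hk, natDegree_mul hirr.ne_zero hk0]
      have hkodd : Odd k.natDegree := by
        rw [hdeg, Nat.even_add'] at h1
        exact h1.1 hp
      obtain ⟨b, hb⟩ := ih k hkodd (by omega)
      have h5 : (h + 1).eval b = 0 := by rw [hk, eval_mul, hb.eq_zero, mul_zero]
      have h6 := hgood.2.2 b
      rw [eval_add, eval_one] at h5
      linarith

end Helper62.RC
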